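import Pool.Agent.helper67.RG.Spec

set_option autoImplicit false

namespace Pool.Agent.RG.CNJ

open Matrix Polynomial Pool.Agent.GO Pool.Agent.AR Pool.Agent.RG

section

variable {F : Type*} [Field F] {Γ : Type*} [Group Γ] {ι : Type*} [Fintype ι] [DecidableEq ι]
  (R : Γ →* Matrix ι ι F)

theorem rtA_val (g : Γ) (f : alg R) (h : Γ) : (rtA R g f).1 h = f.1 (h * g) := rfl

theorem rtA_inv (g : Γ) (f : alg R) : rtA R g (rtA R g⁻¹ f) = f := by
  apply Subtype.ext
  funext h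
  rw [rtA_val, rtA_val, mul_inv_cancel_right]

/-- the conjugated derivation -/
noncomputable def cD (g : Γ) (D : Derivation F (alg R) (alg R)) :
    Derivation F (alg R) (alg R) :=
  Derivation.mk' ((rtA R g).toLinearMap ∘ₗ D.toLinearMap ∘ₗ (rtA R g⁻¹).toLinearMap) (by
    intro a b
    change rtA R g (D (rtA R g⁻¹ (a * b))) =
      a • rtA R g (D (rtA R g⁻¹ b)) + b • rtA R g (D (rtA R g⁻¹ a))
    rw [map_mul, Derivation.leibniz, map_add, smul_eq_mul, smul_eq_mul, map_mul, map_mul,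
      rtA_inv, rtA_inv, smul_eq_mul, smul_eq_mul])

theorem cD_apply (g : Γ) (D : Derivation F (alg R) (alg R)) (f : alg R) :
    cD R g D f = rtA R g (D (rtA R g⁻¹ f)) := rfl

theorem block (g : Γ) (D : Derivation F (alg R) (alg R)) {μ : Type*} [Fintype μ] [DecidableEq μ]
    (U : Γ →* Matrix μ μ F) (e : μ → ι) (he : ∀ h i j, R h (e i) (e j) = U h i j)
    (X : Matrix μ μ F) (hD : ∀ i j h, (D (gen R (e i) (e j))).1 h = (U h * X) i j) :
    ∀ i j h, (cD R g D (gen R (e i) (e j))).1 h = (U h * (U g * X * U g⁻¹)) i j := by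
  intro i j h
  have h1 : rtA R g⁻¹ (gen R (e i) (e j)) = ∑ k, U g⁻¹ k j • gen R (e i) (e k) := by
    apply Subtype.ext
    funext u
    rw [rtA_val, sum_alg_apply]
    change R (u * g⁻¹) (e i) (e j) = ∑ k, U g⁻¹ k j * R u (e i) (e k)
    rw [he, map_mul, Matrix.mul_apply]
    refine Finset.sum_congr rfl fun k _ => ?_
    rw [he, mul_comm]
  rw [cD_apply, h1, rtA_val, map_sum, sum_alg_apply]
  have h2 : ∀ k, (D (U g⁻¹ k j • gen R (e i) (e k))).1 (h * g) =
      (U (h * g) * X) i k * U g⁻¹ k j := by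
    intro k
    rw [Derivation.map_smul]
    change U g⁻¹ k j * (D (gen R (e i) (e k))).1 (h * g) = _
    rw [hD, mul_comm]
  rw [Finset.sum_congr rfl fun k _ => h2 k, ← Matrix.mul_apply, map_mul]
  simp only [Matrix.mul_assoc]

end

theorem CNJ : CNJ_stmt := by
  intro F Γ m κ _ _ _ _ _ _ V ρ g p hp
  obtain ⟨D, h1, h2⟩ := hp
  exact ⟨cD (ds V ρ) g D, block (ds V ρ) g D V Sum.inl (fun _ _ _ => rfl) p.1 h1,
    block (ds V ρ) g D ρ Sum.inr (fun _ _ _ => rfl) p.2 h2⟩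

end Pool.Agent.RG.CNJ
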